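import Pool.Agent.TH948.BD.Defs
import Pool.Agent.TH965.Final

/-!
# Random `r`-uniform families are typical
(job BD-2 of helper948, written by helper811)
-/

set_option autoImplicit false
set_option linter.unusedSectionVars false

namespace Pool.Agent.TH948.BD

open Finset
open scoped Classical
open Pool.Agent.TH965.Spread Pool.Agent.TH948.KK

namespace TypWhp

section general

variable {X : Type*} [DecidableEq X]

lemma exs_congr' (s : Finset X) (p : ℝ) {f g : Finset X → ℝ} (h : ∀ W, W ⊆ s → f W = g W) :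
    exs s p f = exs s p g := by
  unfold exs
  refine Finset.sum_congr rfl fun W hW => ?_
  rw [h W (Finset.mem_powerset.mp hW)]

lemma exs_sum {ι : Type*} (s : Finset X) (p : ℝ) (I : Finset ι) (f : ι → Finset X → ℝ) :
    exs s p (fun W => ∑ i ∈ I, f i W) = ∑ i ∈ I, exs s p (f i) := by
  unfold exs
  rw [Finset.sum_comm]
  refine Finset.sum_congr rfl fun W _ => ?_
  rw [Finset.mul_sum]

lemma exs_ind_subset (s : Finset X) (p : ℝ) : ∀ S : Finset X, S ⊆ s →
    exs s p (fun A => ind (S ⊆ A)) = p ^ S.card := by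
  induction s using Finset.induction_on with
  | empty =>
    intro S hS
    rw [Finset.subset_empty.1 hS, exs_empty, ind_true (Finset.empty_subset _), Finset.card_empty,
      pow_zero]
  | insert x s hx ih =>
    intro S hS
    rw [exs_insert s x hx]
    by_cases hxS : x ∈ S
    · have h1 : exs s p (fun A => ind (S ⊆ A)) = 0 := by
        rw [exs_congr' s p (g := fun _ => 0) (fun W hW => ind_false (fun h => hx (hW (h hxS)))),
          exs_const]
      have h2 : exs s p (fun A => ind (S ⊆ insert x A)) = exs s p (fun A => ind (S.erase x ⊆ A)) := by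
        refine exs_congr' s p fun W _ => ind_congr ?_
        rw [Finset.subset_insert_iff]
      rw [h1, h2, ih (S.erase x) (by
        rw [← Finset.subset_insert_iff]
        exact hS), Finset.card_erase_of_mem hxS, mul_zero, zero_add, ← pow_succ']
      congr 1
      have := Finset.card_pos.2 ⟨x, hxS⟩
      omega
    · have hS' : S ⊆ s := (Finset.subset_insert_iff_of_notMem hxS).1 hS
      have h2 : exs s p (fun A => ind (S ⊆ insert x A)) = exs s p (fun A => ind (S ⊆ A)) :=
        exs_congr' s p fun W _ => ind_congr (Finset.subset_insert_iff_of_notMem hxS)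
      rw [h2, ih S hS']
      ring

end general

/-- the members which contain `x` -/
noncomputable def stS (n r : ℕ) (x : Fin n) : Finset (Finset (Fin n)) :=
  (rsets n r).filter (fun h => x ∈ h)

lemma card_stS (n r : ℕ) (x : Fin n) : (stS n r x).card ≤ n ^ (r - 1) := by
  have h1 : (stS n r x).card ≤ ((univ : Finset (Fin n)).powersetCard (r - 1)).card := by
    refine Finset.card_le_card_of_injOn (fun h => h.erase x) ?_ ?_
    · intro h hh
      obtain ⟨h2, h3⟩ := Finset.mem_filter.1 (Finset.mem_coe.1 hh)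
      unfold rsets at h2
      rw [Finset.mem_powersetCard] at h2
      rw [Finset.mem_coe, Finset.mem_powersetCard]
      exact ⟨Finset.subset_univ _, by rw [Finset.card_erase_of_mem h3, h2.2]⟩
    · intro h hh h' hh' he
      have h2 := (Finset.mem_filter.1 (Finset.mem_coe.1 hh)).2
      have h3 := (Finset.mem_filter.1 (Finset.mem_coe.1 hh')).2
      simp only at he
      rw [← Finset.insert_erase h2, ← Finset.insert_erase h3, he]
  rw [Finset.card_powersetCard, Finset.card_univ, Fintype.card_fin] at h1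
  exact h1.trans (Nat.choose_le_pow _ _)

/-- the dense families with `k` members -/
noncomputable def bad (n r k : ℕ) : Finset (Finset (Finset (Fin n))) :=
  ((rsets n r).powersetCard k).filter (fun F => (F.biUnion id).card < (r - 1) * k)

lemma card_bad (n r k : ℕ) (hk : 1 ≤ k) (hn : (r - 1) * k - 1 ≤ n) :
    (bad n r k).card ≤ n ^ ((r - 1) * k - 1) * 2 ^ 2 ^ ((r - 1) * k - 1) := by
  set t := (r - 1) * k - 1 with ht
  have hsub : bad n r k ⊆ ((univ : Finset (Fin n)).powersetCard t).biUnion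
      (fun T => T.powerset.powerset) := by
    intro F hF
    unfold bad at hF
    rw [Finset.mem_filter] at hF
    have h1 : (F.biUnion id).card ≤ t := by omega
    obtain ⟨T, hT1, -, hT3⟩ := Finset.exists_subsuperset_card_eq (Finset.subset_univ (F.biUnion id)) h1
      (by rw [Finset.card_univ, Fintype.card_fin]; exact hn)
    rw [Finset.mem_biUnion]
    refine ⟨T, Finset.mem_powersetCard.2 ⟨Finset.subset_univ _, hT3⟩, ?_⟩
    rw [Finset.mem_powerset]
    intro h hh
    rw [Finset.mem_powerset]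
    exact (Finset.subset_biUnion_of_mem id hh).trans hT1
  refine (Finset.card_le_card hsub).trans (Finset.card_biUnion_le.trans ?_)
  have h2 : ∀ T ∈ (univ : Finset (Fin n)).powersetCard t, T.powerset.powerset.card = 2 ^ 2 ^ t := by
    intro T hT
    rw [Finset.card_powerset, Finset.card_powerset, (Finset.mem_powersetCard.1 hT).2]
  rw [Finset.sum_congr rfl h2, Finset.sum_const, smul_eq_mul, Finset.card_powersetCard,
    Finset.card_univ, Fintype.card_fin]
  exact Nat.mul_le_mul_right _ (Nat.choose_le_pow _ _)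

/-- the union bound -/
lemma union_bound (n r D : ℕ) (A : Finset (Finset (Fin n))) (hA : A ⊆ rsets n r) :
    ind (¬ Typ r D A) ≤ (∑ x : Fin n, ∑ S ∈ (stS n r x).powersetCard (D + 1), ind (S ⊆ A)) +
      ∑ k ∈ range 6, ∑ F ∈ bad n r k, ind (F ⊆ A) := by
  have p1 : 0 ≤ ∑ x : Fin n, ∑ S ∈ (stS n r x).powersetCard (D + 1), ind (S ⊆ A) :=
    Finset.sum_nonneg fun x _ => Finset.sum_nonneg fun S _ => ind_nonneg _
  have p2 : 0 ≤ ∑ k ∈ range 6, ∑ F ∈ bad n r k, ind (F ⊆ A) :=
    Finset.sum_nonneg fun x _ => Finset.sum_nonneg fun S _ => ind_nonneg _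
  by_cases hT : Typ r D A
  · rw [ind_false (not_not.2 hT)]
    exact add_nonneg p1 p2
  · rw [ind_true hT]
    unfold Typ at hT
    rw [not_and_or] at hT
    rcases hT with h | h
    · push Not at h
      obtain ⟨x, hx⟩ := h
      obtain ⟨S, hS1, hS2⟩ := Finset.exists_subset_card_eq (Nat.succ_le_of_lt hx)
      have hSA : S ⊆ A := hS1.trans (Finset.filter_subset _ _)
      have hS : S ∈ (stS n r x).powersetCard (D + 1) := by
        rw [Finset.mem_powersetCard]
        refine ⟨fun h hh => ?_, hS2⟩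
        obtain ⟨h3, h4⟩ := Finset.mem_filter.1 (hS1 hh)
        exact Finset.mem_filter.2 ⟨hA h3, h4⟩
      have h5 : (1 : ℝ) ≤ ∑ S ∈ (stS n r x).powersetCard (D + 1), ind (S ⊆ A) := by
        rw [← ind_true hSA]
        exact Finset.single_le_sum (f := fun S => ind (S ⊆ A)) (fun S _ => ind_nonneg _) hS
      have h6 : ∑ S ∈ (stS n r x).powersetCard (D + 1), ind (S ⊆ A) ≤
          ∑ x : Fin n, ∑ S ∈ (stS n r x).powersetCard (D + 1), ind (S ⊆ A) :=
        Finset.single_le_sum (f := fun x => ∑ S ∈ (stS n r x).powersetCard (D + 1), ind (S ⊆ A))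
          (fun x _ => Finset.sum_nonneg fun S _ => ind_nonneg _) (mem_univ x)
      linarith
    · push Not at h
      obtain ⟨F, hFA, hF5, hF⟩ := h
      have hb : F ∈ bad n r F.card := by
        unfold bad
        rw [Finset.mem_filter, Finset.mem_powersetCard]
        exact ⟨⟨hFA.trans hA, rfl⟩, hF⟩
      have h5 : (1 : ℝ) ≤ ∑ F ∈ bad n r F.card, ind (F ⊆ A) := by
        rw [← ind_true hFA]
        exact Finset.single_le_sum (f := fun F => ind (F ⊆ A)) (fun S _ => ind_nonneg _) hb
      have h6 : ∑ F ∈ bad n r F.card, ind (F ⊆ A) ≤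
          ∑ k ∈ range 6, ∑ F ∈ bad n r k, ind (F ⊆ A) :=
        Finset.single_le_sum (f := fun k => ∑ F ∈ bad n r k, ind (F ⊆ A))
          (fun x _ => Finset.sum_nonneg fun S _ => ind_nonneg _)
          (Finset.mem_range.2 (by omega))
      linarith

/-- the numerical bound for the degrees -/
lemma deg_num {x : ℝ} (hx : 0 ≤ x) (k : ℕ) : x ^ k / (k.factorial : ℝ) ≤ Real.exp (3 * x - k) := by
  have h1 := Real.pow_div_factorial_le_exp (3 * x) (by positivity) k
  have h2 : x ^ k / (k.factorial : ℝ) = (1 / 3) ^ k * ((3 * x) ^ k / (k.factorial : ℝ)) := by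
    rw [mul_pow, ← mul_div_assoc, ← mul_assoc, ← mul_pow]
    norm_num
  have h3 : (1 / 3 : ℝ) ≤ Real.exp (-1) := by
    rw [Real.exp_neg, one_div]
    have := Real.exp_one_lt_d9
    exact inv_anti₀ (Real.exp_pos 1) (by linarith)
  have h4 : (1 / 3 : ℝ) ^ k ≤ Real.exp (-k) := by
    calc (1 / 3 : ℝ) ^ k ≤ Real.exp (-1) ^ k := pow_le_pow_left₀ (by norm_num) h3 k
      _ = Real.exp (-k) := by rw [← Real.exp_nat_mul]; congr 1; ring
  rw [h2, show 3 * x - (k : ℝ) = -k + 3 * x by ring, Real.exp_add]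
  exact mul_le_mul h4 h1 (by positivity) (Real.exp_pos _).le

lemma tendsto_term (C₁ c : ℝ) (k : ℕ) :
    Filter.Tendsto (fun n : ℕ => c * ((C₁ * Real.log n) ^ k / (n : ℝ))) Filter.atTop (nhds 0) := by
  have h1 : Filter.Tendsto (fun x : ℝ => Real.log x ^ k / x) Filter.atTop (nhds 0) := by
    have := (Real.isLittleO_pow_log_id_atTop (n := k)).tendsto_div_nhds_zero
    exact this
  have h2 := (h1.comp (tendsto_natCast_atTop_atTop (R := ℝ))).const_mul (c * C₁ ^ k)
  rw [mul_zero] at h2
  refine h2.congr fun n => ?_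
  simp only [Function.comp]
  rw [mul_pow]
  ring

end TypWhp

open TypWhp in
theorem typ_whp (r : ℕ) (hr : 2 ≤ r) (C₁ : ℝ) (hC₁ : 0 < C₁) :
    ∃ C₂ : ℝ, 0 < C₂ ∧ ∀ᶠ n : ℕ in Filter.atTop,
      exs (rsets n r) (C₁ * Real.log n / (n : ℝ) ^ (r - 1))
        (fun A => ind (¬ Typ r ⌈C₂ * Real.log n⌉₊ A)) ≤ 1 / 7 := by
  refine ⟨3 * C₁ + 2, by positivity, ?_⟩
  -- the limits
  have hlim : Filter.Tendsto (fun n : ℕ => 1 * ((C₁ * Real.log n) ^ 0 / (n : ℝ)) +
      ∑ k ∈ range 6, (2 : ℝ) ^ 2 ^ ((r - 1) * k - 1) * ((C₁ * Real.log n) ^ k / (n : ℝ)))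
      Filter.atTop (nhds 0) := by
    have h1 := tendsto_term C₁ 1 0
    have h2 := tendsto_finsetSum (range 6) (fun k _ =>
      tendsto_term C₁ ((2 : ℝ) ^ 2 ^ ((r - 1) * k - 1)) k)
    have h3 := h1.add h2
    rw [Finset.sum_const_zero, add_zero] at h3
    exact h3
  have hlim1 := tendsto_term C₁ 1 1
  filter_upwards [Filter.eventually_ge_atTop (max 1 ((r - 1) * 6)),
    hlim.eventually (gt_mem_nhds (show (0 : ℝ) < 1 / 7 by norm_num)),
    hlim1.eventually (gt_mem_nhds (show (0 : ℝ) < 1 by norm_num))] with n hn hsmall hpi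
  have hn1 : 1 ≤ n := (le_max_left _ _).trans hn
  have hn6 : (r - 1) * 6 ≤ n := (le_max_right _ _).trans hn
  have hnR : (1 : ℝ) ≤ n := by exact_mod_cast hn1
  have hn0 : (0 : ℝ) < n := by linarith
  have hlog : 0 ≤ Real.log n := Real.log_nonneg hnR
  set π : ℝ := C₁ * Real.log n / (n : ℝ) ^ (r - 1) with hπ
  have hπ0 : 0 ≤ π := by positivity
  have hπ1 : π ≤ 1 := by
    have h1 : (n : ℝ) ≤ (n : ℝ) ^ (r - 1) := le_self_pow₀ hnR (by omega)
    calc π ≤ C₁ * Real.log n / n := div_le_div_of_nonneg_left (by positivity) hn0 h1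
      _ ≤ 1 := by
        rw [one_mul, pow_one] at hpi
        exact hpi.le
  have hNπ : (n : ℝ) ^ (r - 1) * π = C₁ * Real.log n := by
    rw [hπ]
    field_simp
  set D := ⌈(3 * C₁ + 2) * Real.log n⌉₊ with hD
  -- the union bound
  have hub := exs_mono (rsets n r) hπ0 hπ1 (fun A hA => union_bound n r D A hA)
  rw [exs_add, exs_sum, exs_sum] at hub
  refine hub.trans ?_
  -- the degrees
  have hdeg : ∑ x : Fin n, exs (rsets n r) π
      (fun A => ∑ S ∈ (stS n r x).powersetCard (D + 1), ind (S ⊆ A)) ≤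
      1 * ((C₁ * Real.log n) ^ 0 / (n : ℝ)) := by
    have h1 : ∀ x : Fin n, exs (rsets n r) π
        (fun A => ∑ S ∈ (stS n r x).powersetCard (D + 1), ind (S ⊆ A)) ≤
        1 / (n : ℝ) ^ 2 := by
      intro x
      rw [exs_sum]
      have h2 : ∀ S ∈ (stS n r x).powersetCard (D + 1),
          exs (rsets n r) π (fun A => ind (S ⊆ A)) = π ^ (D + 1) := by
        intro S hS
        rw [Finset.mem_powersetCard] at hS
        rw [exs_ind_subset _ _ S (hS.1.trans (Finset.filter_subset _ _)), hS.2]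
      rw [Finset.sum_congr rfl h2, Finset.sum_const, nsmul_eq_mul, Finset.card_powersetCard]
      have h3 : (((stS n r x).card.choose (D + 1) : ℕ) : ℝ) ≤
          ((stS n r x).card : ℝ) ^ (D + 1) / ((D + 1).factorial : ℝ) :=
        Nat.choose_le_pow_div _ _
      have h4 : ((stS n r x).card : ℝ) ≤ (n : ℝ) ^ (r - 1) := by
        exact_mod_cast card_stS n r x
      calc (((stS n r x).card.choose (D + 1) : ℕ) : ℝ) * π ^ (D + 1)
          ≤ ((stS n r x).card : ℝ) ^ (D + 1) / ((D + 1).factorial : ℝ) * π ^ (D + 1) :=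
            mul_le_mul_of_nonneg_right h3 (by positivity)
        _ ≤ ((n : ℝ) ^ (r - 1)) ^ (D + 1) / ((D + 1).factorial : ℝ) * π ^ (D + 1) := by
            refine mul_le_mul_of_nonneg_right ?_ (by positivity)
            refine div_le_div_of_nonneg_right ?_ (by positivity)
            exact pow_le_pow_left₀ (Nat.cast_nonneg _) h4 _
        _ = (C₁ * Real.log n) ^ (D + 1) / ((D + 1).factorial : ℝ) := by
            rw [← hNπ, mul_pow]
            ring
        _ ≤ Real.exp (3 * (C₁ * Real.log n) - ((D + 1 : ℕ) : ℝ)) := deg_num (by positivity) _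
        _ ≤ Real.exp (-(2 * Real.log n)) := by
            apply Real.exp_le_exp.2
            have h5 : (3 * C₁ + 2) * Real.log n ≤ D := Nat.le_ceil _
            push_cast
            nlinarith
        _ = 1 / (n : ℝ) ^ 2 := by
            rw [Real.exp_neg, two_mul, Real.exp_add, Real.exp_log hn0, one_div, sq]
    refine (Finset.sum_le_sum fun x _ => h1 x).trans (le_of_eq ?_)
    rw [Finset.sum_const, nsmul_eq_mul, Finset.card_univ, Fintype.card_fin, pow_zero]
    field_simp
  -- the dense families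
  have hbad : ∑ k ∈ range 6, exs (rsets n r) π (fun A => ∑ F ∈ bad n r k, ind (F ⊆ A)) ≤
      ∑ k ∈ range 6, (2 : ℝ) ^ 2 ^ ((r - 1) * k - 1) * ((C₁ * Real.log n) ^ k / (n : ℝ)) := by
    refine Finset.sum_le_sum fun k hk => ?_
    rw [exs_sum]
    have h2 : ∀ F ∈ bad n r k, exs (rsets n r) π (fun A => ind (F ⊆ A)) = π ^ k := by
      intro F hF
      unfold bad at hF
      rw [Finset.mem_filter, Finset.mem_powersetCard] at hF
      rw [exs_ind_subset _ _ F hF.1.1, hF.1.2]
    rw [Finset.sum_congr rfl h2, Finset.sum_const, nsmul_eq_mul]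
    rcases Nat.eq_zero_or_pos k with hk0 | hk0
    · subst hk0
      have h3 : bad n r 0 = ∅ := by
        unfold bad
        refine Finset.filter_eq_empty_iff.2 fun F _ => ?_
        simp
      rw [h3, Finset.card_empty, Nat.cast_zero, zero_mul]
      positivity
    · have hk5 := Finset.mem_range.1 hk
      have h4 : (r - 1) * k - 1 ≤ n := by
        have : (r - 1) * k ≤ (r - 1) * 6 := Nat.mul_le_mul_left _ (by omega)
        omega
      have h5 : ((bad n r k).card : ℝ) ≤
          (n : ℝ) ^ ((r - 1) * k - 1) * 2 ^ 2 ^ ((r - 1) * k - 1) := by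
        exact_mod_cast card_bad n r k hk0 h4
      have h6 : (n : ℝ) ^ ((r - 1) * k - 1) * π ^ k = (C₁ * Real.log n) ^ k / (n : ℝ) := by
        rw [eq_div_iff hn0.ne', ← hNπ, mul_pow, ← pow_mul]
        have h7 : (n : ℝ) ^ ((r - 1) * k) = (n : ℝ) ^ ((r - 1) * k - 1) * n := by
          rw [← pow_succ]
          congr 1
          have : 1 ≤ (r - 1) * k := Nat.mul_pos (by omega) hk0
          omega
        rw [h7]
        ring
      calc ((bad n r k).card : ℝ) * π ^ k
          ≤ ((n : ℝ) ^ ((r - 1) * k - 1) * 2 ^ 2 ^ ((r - 1) * k - 1)) * π ^ k :=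
            mul_le_mul_of_nonneg_right h5 (by positivity)
        _ = 2 ^ 2 ^ ((r - 1) * k - 1) * ((n : ℝ) ^ ((r - 1) * k - 1) * π ^ k) := by ring
        _ = _ := by rw [h6]
  linarith

end Pool.Agent.TH948.BD
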